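import Mathlib
import Pool.Agent.Y942.SQ.Final

set_option autoImplicit false

open Polynomial
open scoped Pointwise

namespace Pool.Agent.Results.MP_9d026e_co.PowersEnergy

/-- Lemma P (helper16) in the form used by helper329. -/
theorem lemmaP_zmod (p : ℕ) [Fact p.Prime] (hp : 5 ≤ p) :
    Pool.Helper329.SQ.LemmaP (ZMod p) :=
  Pool.Agent.Y942.SQ.lemmaP_of (ZMod p) (Pool.Helper329.SQ.two_ne hp) (Pool.Helper329.SQ.three_ne hp)

/-- **Powers of rational functions over finite fields of odd characteristic.**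
`A.addEnergy A` is the number of `(a, a', b, b') ∈ A⁴` with `a + b = a' + b'`.

(1) For every finite field `F` of odd characteristic there are `δ > 0` and `C` such that for every
exponent `k ≥ 1` which is not a power of the characteristic, every finite set `A` of `k`-th powers
in the field of rational functions over `F` in any number of variables (or in `F[x]`) has additive
energy at most `C |A| ^ (3 - δ)`, and `|A + B| ^ 2 ≥ |A| ^ (1 + δ) |B| / C` for every finite `B`.
(2) If `k` is a power of the characteristic there is no growth at all.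
(3) For `k = 2` and `F = 𝔽_p` there are no constants: there is `ε > 0` with
`|A + A| ≥ |A| ^ (1 + ε)`, for all finite sets of squares of polynomials in one variable or of
rational functions in any number of variables, the case `p = 3`, `|A| = 3` excepted.
(4) The exponent has to depend on `p`. -/
theorem result :
    (∀ (F : Type) [Field F] [Finite F], ringChar F ≠ 2 →
      ∃ δ C : ℝ, 0 < δ ∧ 0 < C ∧ ∀ k : ℕ, 0 < k → (∀ a : ℕ, k ≠ ringChar F ^ a) →
        (∀ (σ : Type) [DecidableEq (FractionRing (MvPolynomial σ F))]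
          (A : Finset (FractionRing (MvPolynomial σ F))),
          (∀ f ∈ A, ∃ g : FractionRing (MvPolynomial σ F), f = g ^ k) →
            ((A.addEnergy A : ℕ) : ℝ) ≤ C * (A.card : ℝ) ^ (3 - δ) ∧
            ∀ B : Finset (FractionRing (MvPolynomial σ F)),
              (A.card : ℝ) ^ (1 + δ) * (B.card : ℝ) ≤ C * ((A + B).card : ℝ) ^ 2) ∧
        (∀ [DecidableEq F[X]] (A : Finset F[X]), (∀ f ∈ A, ∃ g : F[X], f = g ^ k) →
            ((A.addEnergy A : ℕ) : ℝ) ≤ C * (A.card : ℝ) ^ (3 - δ) ∧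
            ∀ B : Finset F[X],
              (A.card : ℝ) ^ (1 + δ) * (B.card : ℝ) ≤ C * ((A + B).card : ℝ) ^ 2)) ∧
    (∀ (F : Type) [Field F] [Finite F] [DecidableEq F[X]] (a N : ℕ),
      ∃ A : Finset F[X], (∀ f ∈ A, ∃ g : F[X], f = g ^ (ringChar F ^ a)) ∧ N ≤ A.card ∧
        (A + A).card = A.card) ∧
    (∀ (p : ℕ) [Fact p.Prime], p ≠ 2 →
      ∃ ε : ℝ, 0 < ε ∧
        (∀ A : Finset (ZMod p)[X], (∀ f ∈ A, IsSquare f) → (p = 3 → A.card ≠ 3) →
          (A.card : ℝ) ^ (1 + ε) ≤ ((A + A).card : ℝ)) ∧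
        (∀ (σ : Type) [DecidableEq (FractionRing (MvPolynomial σ (ZMod p)))]
          (A : Finset (FractionRing (MvPolynomial σ (ZMod p)))), (∀ f ∈ A, IsSquare f) →
          (p = 3 → A.card ≠ 3) → (A.card : ℝ) ^ (1 + ε) ≤ ((A + A).card : ℝ))) ∧
    (∀ ε : ℝ, 0 < ε → ∃ (p : ℕ) (_ : Fact p.Prime), 5 ≤ p ∧
      ∃ A : Finset (ZMod p)[X], (∀ f ∈ A, IsSquare f) ∧
        ((A + A).card : ℝ) < (A.card : ℝ) ^ (1 + ε)) := by
  refine ⟨?_, fun F _ _ _ a N => Pool.Agent.Y942.SQ.no_growth F a N,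
    fun p _ hp => Pool.Agent.Y942.SQ.exact_main (fun p _ h => lemmaP_zmod p h) p hp,
    fun ε hε => Pool.Agent.Y942.SQ.exponent_small ε hε⟩
  intro F _ _ hF
  obtain ⟨δ, C, h1, _, h3, h4⟩ := Pool.Agent.Y942.SQ.energy_main F hF
  refine ⟨δ, C, h1, by linarith, ?_⟩
  intro k hk hkp
  refine ⟨?_, ?_⟩
  · intro σ _ A hA
    have h5 := h4 k hk hkp σ A hA
    exact ⟨h5, fun B => Pool.Agent.Y942.SQ.sumset_of_energy A B δ C (by linarith) h1 h5⟩
  · intro _ A hA
    have h5 : ((A.addEnergy A : ℕ) : ℝ) ≤ C * (A.card : ℝ) ^ (3 - δ) := by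
      obtain ⟨φ, hφ⟩ := Pool.Agent.Y942.SQ.exists_embed F
      let _ : DecidableEq (FractionRing (MvPolynomial PUnit F)) := Classical.decEq _
      have h6 := h4 k hk hkp PUnit (A.image φ) (by
        intro y hy
        obtain ⟨x, hx, rfl⟩ := Finset.mem_image.1 hy
        obtain ⟨g, hg⟩ := hA x hx
        exact ⟨φ g, by rw [hg, map_pow]⟩)
      rw [Finset.card_image_of_injective _ hφ] at h6
      refine le_trans ?_ h6
      exact_mod_cast Pool.Agent.Y942.SQ.energy_le_image A φ hφ.injOn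
        (fun a _ b _ c _ d _ h => by rw [← map_add, ← map_add, h])
    exact ⟨h5, fun B => Pool.Agent.Y942.SQ.sumset_of_energy A B δ C (by linarith) h1 h5⟩

end Pool.Agent.Results.MP_9d026e_co.PowersEnergy
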